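import Pool.Agent.H67.HM.Stm

/-!
# Project HM, part SEP: density of separable polynomials with nonzero constant term
-/

set_option autoImplicit false

open Polynomial

namespace HM

lemma sep_aux (A B : ℂ[X]) (hB : B.Separable) (hB0 : B ≠ 0)
    (hdeg : A.natDegree ≤ B.natDegree) :
    {t : ℂ | ¬ (A + C t * B).Separable}.Finite := by
  have hco : ∀ z : ℂ, B.eval z ≠ 0 ∨ B.derivative.eval z ≠ 0 := by
    intro z
    have := (isCoprime_iff_aeval_ne_zero_of_isAlgClosed ℂ ℂ B B.derivative).1 hB z
    simpa using this
  have hcom : ∀ t : ℂ, ¬ (A + C t * B).Separable →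
      ∃ z, A.eval z + t * B.eval z = 0 ∧ A.derivative.eval z + t * B.derivative.eval z = 0 := by
    intro t ht
    by_contra hcon
    push Not at hcon
    apply ht
    unfold Separable
    rw [isCoprime_iff_aeval_ne_zero_of_isAlgClosed ℂ ℂ]
    intro z
    by_cases h : A.eval z + t * B.eval z = 0
    · right
      have := hcon z h
      simpa using this
    · left
      simpa using h
  by_cases hW : A * B.derivative - A.derivative * B = 0
  · -- proportional
    have h1 : A * B.derivative = A.derivative * B := sub_eq_zero.1 hW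
    have h2 : B ∣ A := hB.dvd_of_dvd_mul_right (h1 ▸ Dvd.intro_left _ rfl)
    obtain ⟨Q, rfl⟩ := h2
    obtain ⟨c, hc⟩ : ∃ c : ℂ, Q = C c := by
      by_cases hQ : Q = 0
      · exact ⟨0, by rw [hQ, C_0]⟩
      · rw [natDegree_mul hB0 hQ] at hdeg
        exact ⟨_, eq_C_of_natDegree_eq_zero (by omega)⟩
    subst hc
    refine Set.Finite.subset (Set.finite_singleton (-c)) ?_
    intro t ht
    rw [Set.mem_singleton_iff]
    by_contra hne
    apply ht
    have h3 : B * C c + C t * B = C (c + t) * B := by
      rw [C_add]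
      ring
    rw [h3]
    have h4 : IsUnit (C (c + t) : ℂ[X]) := by
      rw [isUnit_C, isUnit_iff_ne_zero]
      intro h
      exact hne (eq_neg_of_add_eq_zero_right h)
    exact (associated_unit_mul_left B _ h4).symm.separable hB
  · -- finitely many common roots
    set W := A * B.derivative - A.derivative * B with hWd
    have hsub : {t : ℂ | ¬ (A + C t * B).Separable} ⊆
        ⋃ z ∈ (W.roots.toFinset : Set ℂ),
          {t : ℂ | A.eval z + t * B.eval z = 0 ∧ A.derivative.eval z + t * B.derivative.eval z = 0} := by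
      intro t ht
      obtain ⟨z, hz1, hz2⟩ := hcom t ht
      rw [Set.mem_iUnion₂]
      refine ⟨z, ?_, hz1, hz2⟩
      rw [Finset.mem_coe, Multiset.mem_toFinset, mem_roots hW, IsRoot.def, hWd, eval_sub, eval_mul,
        eval_mul]
      linear_combination B.derivative.eval z * hz1 - B.eval z * hz2
    refine Set.Finite.subset (Set.Finite.biUnion (Finset.finite_toSet _) fun z _ => ?_) hsub
    apply Set.Subsingleton.finite
    rintro t ⟨h1, h2⟩ s ⟨h3, h4⟩
    rcases hco z with h | h
    · exact mul_right_cancel₀ h (by linear_combination h1 - h3)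
    · exact mul_right_cancel₀ h (by linear_combination h2 - h4)

theorem t_SEP : S_SEP := by
  intro A ε hε
  rcases Nat.eq_zero_or_pos A.natDegree with h0 | hpos
  · rw [natDegree_eq_zero] at h0
    obtain ⟨a, rfl⟩ := h0
    obtain ⟨c, hc0, hc⟩ : ∃ c : ℂ, c ≠ 0 ∧ ‖c - a‖ ≤ ε := by
      by_cases ha : a = 0
      · refine ⟨(ε : ℂ), by exact_mod_cast hε.ne', ?_⟩
        rw [ha, sub_zero, Complex.norm_real, Real.norm_of_nonneg hε.le]
      · exact ⟨a, ha, by simpa using hε.le⟩
    refine ⟨C c, ?_, by simpa using hc0, by simp, ?_⟩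
    · exact (separable_C c).2 (isUnit_iff_ne_zero.2 hc0)
    · intro k
      rw [coeff_C, coeff_C]
      split_ifs
      · exact hc
      · simpa using hε.le
  · set n := A.natDegree with hn
    set B : ℂ[X] := X ^ n - C (-1) with hB
    have hBs : B.Separable := separable_X_pow_sub_C (-1) (by exact_mod_cast hpos.ne') (by norm_num)
    have hBd : B.natDegree = n := natDegree_X_pow_sub_C
    have hB0 : B ≠ 0 := by
      intro h
      rw [h, natDegree_zero] at hBd
      omega
    have hfin := sep_aux A B hBs hB0 (by rw [hBd])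
    have hbad : ({t : ℂ | ¬ (A + C t * B).Separable} ∪ {-A.coeff 0}).Finite :=
      hfin.union (Set.finite_singleton _)
    -- a small real parameter outside the bad set
    have hinf : (Set.Ioo (0 : ℝ) (ε / 2)).Infinite := Set.Ioo_infinite (by linarith)
    have hinf2 : ((fun x : ℝ => (x : ℂ)) '' Set.Ioo (0 : ℝ) (ε / 2)).Infinite :=
      hinf.image (Complex.ofReal_injective.injOn)
    obtain ⟨t, ht, htb⟩ := hinf2.exists_notMem_finite hbad
    obtain ⟨x, hx, rfl⟩ := ht
    simp only [Set.mem_union, Set.mem_ofPred_eq, Set.mem_singleton_iff, not_or, not_not] at htb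
    refine ⟨A + C (x : ℂ) * B, htb.1, ?_, ?_, ?_⟩
    · have h1 : B.coeff 0 = 1 := by
        rw [hB, coeff_sub, coeff_X_pow, if_neg (by omega), coeff_C_zero]
        ring
      rw [coeff_add, coeff_C_mul, h1, mul_one]
      intro h
      exact htb.2 (by linear_combination h)
    · refine (natDegree_add_le _ _).trans (max_le le_rfl ?_)
      exact (natDegree_C_mul_le _ _).trans (by rw [hBd])
    · intro k
      rw [coeff_add, add_sub_cancel_left, coeff_C_mul, norm_mul, Complex.norm_real,
        Real.norm_of_nonneg hx.1.le]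
      have h2 : ‖B.coeff k‖ ≤ 2 := by
        rw [hB, coeff_sub, coeff_X_pow, coeff_C]
        refine (norm_sub_le _ _).trans ?_
        split_ifs <;> norm_num
      nlinarith [hx.1, hx.2, norm_nonneg (B.coeff k)]

end HM
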